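import Mathlib
import Pool.Agent.W551.Iso.Defs
import Pool.Agent.W551.Iso.Scale

/-!
# Singular isoperimetric regions whose boundary has nonzero constant mean curvature

On `ℝ⁵ × ℝ⁵` let `U = |x|²`, `V = |y|²`, `r² = U + V` and `G = (U² - V²) / 4 + r⁵ / 5`.  The region
`Ω = {G < 0}` is bounded and its boundary has exactly one singular point, the origin, with tangent
cone `{|x| = |y|}`.  The field `X = ∇G / |∇G|` is smooth near `Ω \ {0}` except far inside.  Let
`D = div X`.  There are a smooth positive volume density `f` and a metric `g` with volume density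
`f` for which `X / f` is a unit field normal to the level sets of `G`, such that `H f = D` on the
boundary, `H f ≤ D` outside `Ω`, and `div (ζ(G) X) ≤ H f` inside `Ω`, `H = 52 / 5`.  A calibration
argument with the field `ζ(G) X / f` shows that `Ω` is isoperimetric.  Scaling gives every `H > 0`.
-/

set_option autoImplicit false

open Set MeasureTheory
open scoped ContDiff ENNReal

namespace Pool.Agent.Results.MP_89119d_gt.SingularCMC

open Pool.Agent.W551.Iso

/-- For every `H > 0` there are a complete Riemannian metric `g` on `ℝ¹⁰` and a bounded open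
isoperimetric region `Ω` of `(ℝ¹⁰, g)` whose boundary has exactly one singular point and has
constant mean curvature `H` at all of its regular points. -/
theorem result : ∀ H : ℝ, 0 < H →
    ∃ (g : (Fin 5 ⊕ Fin 5 → ℝ) → Matrix (Fin 5 ⊕ Fin 5) (Fin 5 ⊕ Fin 5) ℝ)
      (Ω : Set (Fin 5 ⊕ Fin 5 → ℝ)),
      IsMetric g ∧ IsCompleteMetric g ∧ IsIsoperimetricRegion g Ω ∧
      IsOpen Ω ∧ Bornology.IsBounded Ω ∧ interior (closure Ω) = Ω ∧
      (∀ p ∈ frontier Ω, ∀ V : Set (Fin 5 ⊕ Fin 5 → ℝ), IsOpen V → p ∈ V →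
        0 < vol g (Ω ∩ V) ∧ 0 < vol g (V \ Ω)) ∧
      (∀ p, IsSingularPoint Ω p ↔ p = 0) ∧
      (∀ p, IsRegularPoint Ω p → HasMeanCurvature g Ω p H) := by
  intro H hH
  obtain ⟨M, hM⟩ := exists_good
  have hκ : 0 < (52 / 5 : ℝ) / H := by positivity
  refine ⟨sc ((52 / 5 : ℝ) / H) (gg M), Om, isMetric_sc (isMetric_gg hM) hκ,
    isComplete_sc hκ (isComplete_gg hM), isIsoperimetricRegion_sc hκ (isIsoperimetricRegion_Om hM),
    isOpen_Om, isBounded_Om, interior_closure_Om, ?_, isSingularPoint_iff, ?_⟩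
  · intro p hp V hV hpV
    have h := vol_pos_both hM hp hV hpV
    have hc : ENNReal.ofReal (((52 / 5 : ℝ) / H) ^ Fintype.card (Fin 5 ⊕ Fin 5)) ≠ 0 :=
      (ENNReal.ofReal_pos.mpr (by positivity)).ne'
    rw [vol_sc hκ, Measure.smul_apply, Measure.smul_apply, smul_eq_mul, smul_eq_mul]
    exact ⟨ENNReal.mul_pos hc h.1.ne', ENNReal.mul_pos hc h.2.ne'⟩
  · intro p hp
    have h0 : p ≠ 0 := by
      rintro rfl
      exact not_isRegularPoint_zero hp
    have h1 := hasMeanCurvature_sc hκ (hasMeanCurvature_Om hM hp.1 h0)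
    have h2 : ((52 / 5 : ℝ) / H)⁻¹ * (52 / 5) = H := by field_simp
    rwa [h2] at h1

end Pool.Agent.Results.MP_89119d_gt.SingularCMC
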